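import Pool.Agent.H6.HT12

/-!
The exact value of the minimal height expansion ratio of dominant rational self-maps of degree
`d` of `P^N`: it is `d^{-(N-1)}` for all `N ≥ 2` and `d ≥ 2`.
-/

namespace Pool.Agent.Results.MP_3d4caa_nt.ExactValue

open Pool.Agent.H6.HTDefs

/-- For all `N ≥ 2` and `d ≥ 2` the infimum `muBar N d` of the height expansion ratio `μ(f)` over
the dominant rational self-maps `f` of `P^N` of degree `d` over the algebraic numbers equals
`1 / d^(N-1)`. -/
theorem result (N d : ℕ) (hN : 2 ≤ N) (hd : 2 ≤ d) :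
    muBar N d = ((1 / (d : ℝ) ^ (N - 1) : ℝ) : EReal) :=
  Pool.Agent.H6.HT.main N d hN hd

end Pool.Agent.Results.MP_3d4caa_nt.ExactValue
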